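import Mathlib
import Pool.Agent.H11.CV.Targets

/-!
# Slices (module SL), off-diagonal parts (module DL), the polynomials `P_Q` (module PQ)
-/

open Finset Polynomial

namespace Pool.Agent.H57.CV

open Pool.Agent.H11.CV

theorem sum_shift_one {M : ℕ} (ψ : ℤ → ℂ) (hψ : ∀ x, ψ (x + M) = ψ x) :
    ∑ s ∈ range M, ψ ((s : ℤ) + 1) = ∑ s ∈ range M, ψ s := by
  have h1 : ∑ s ∈ range (M + 1), ψ (s : ℤ) = ∑ s ∈ range M, ψ (s : ℤ) + ψ (M : ℤ) := Finset.sum_range_succ _ _
  have h2 : ∑ s ∈ range (M + 1), ψ (s : ℤ) = ∑ s ∈ range M, ψ ((s : ℤ) + 1) + ψ 0 := by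
    rw [Finset.sum_range_succ']
    simp
  have h3 : ψ (M : ℤ) = ψ 0 := by
    have := hψ 0
    rwa [zero_add] at this
  rw [h1, h3] at h2
  exact (add_right_cancel h2).symm

theorem sum_shift {M : ℕ} (ψ : ℤ → ℂ) (hψ : ∀ x, ψ (x + M) = ψ x) (t : ℤ) :
    ∑ s ∈ range M, ψ ((s : ℤ) + t) = ∑ s ∈ range M, ψ s := by
  have key : ∀ t : ℤ, ∑ s ∈ range M, ψ ((s : ℤ) + (t + 1)) = ∑ s ∈ range M, ψ ((s : ℤ) + t) := by
    intro t
    have := sum_shift_one (M := M) (fun x => ψ (x + t)) (fun x => by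
      have := hψ (x + t)
      show ψ (x + M + t) = ψ (x + t)
      rw [← this]; congr 1; ring)
    rw [← this]
    refine Finset.sum_congr rfl fun s _ => ?_
    congr 1; ring
  induction t using Int.induction_on with
  | zero => simp
  | succ i ih => rw [key, ih]
  | pred i ih =>
    have := key (-(i : ℤ) - 1)
    rw [sub_add_cancel] at this
    rw [← this, ih]

theorem sl (hEX : T_EX) : T_SL := by
  obtain ⟨ex1, ex2, ex3, ex4, ex5, ex6, ex7⟩ := hEX
  intro M G _ v hM
  have hM0 : (M : ℂ) ≠ 0 := by exact_mod_cast hM.ne'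
  refine ⟨?_, ?_, ?_⟩
  · intro r S k g
    simp only [slc, Finset.mul_sum]
    rw [Finset.sum_comm]
  · intro r q _ h hq
    have hMr : (0 : ℝ) < M := by exact_mod_cast hM
    have h1 : ∀ g, ‖slc M v r h g‖ ^ q ≤ ∑ t ∈ range M, (M : ℝ)⁻¹ * ‖h (g + t • v)‖ ^ q := by
      intro g
      have h2 : ‖slc M v r h g‖ ≤ ∑ t ∈ range M, (M : ℝ)⁻¹ * ‖h (g + t • v)‖ := by
        rw [slc, norm_mul, norm_inv, Complex.norm_natCast, ← Finset.mul_sum]
        refine mul_le_mul_of_nonneg_left ?_ (by positivity)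
        refine (norm_sum_le _ _).trans (Finset.sum_le_sum fun t _ => ?_)
        rw [norm_mul, ex1, one_mul]
      calc ‖slc M v r h g‖ ^ q ≤ (∑ t ∈ range M, (M : ℝ)⁻¹ * ‖h (g + t • v)‖) ^ q :=
            pow_le_pow_left₀ (norm_nonneg _) h2 q
        _ ≤ _ := by
            refine Real.pow_arith_mean_le_arith_mean_pow (range M) (fun _ => (M : ℝ)⁻¹)
              (fun t => ‖h (g + t • v)‖) (fun _ _ => by positivity) ?_ (fun _ _ => norm_nonneg _) q
            rw [Finset.sum_const, Finset.card_range, nsmul_eq_mul]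
            field_simp
    calc ∑ g, ‖slc M v r h g‖ ^ q ≤ ∑ g, ∑ t ∈ range M, (M : ℝ)⁻¹ * ‖h (g + t • v)‖ ^ q :=
          Finset.sum_le_sum fun g _ => h1 g
      _ = ∑ t ∈ range M, (M : ℝ)⁻¹ * ∑ g, ‖h (g + t • v)‖ ^ q := by
          rw [Finset.sum_comm]
          simp only [Finset.mul_sum]
      _ = ∑ t ∈ range M, (M : ℝ)⁻¹ * ∑ g, ‖h g‖ ^ q := by
          refine Finset.sum_congr rfl fun t _ => ?_
          congr 1
          exact Fintype.sum_equiv (Equiv.addRight (t • v)) _ _ fun g => rfl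
      _ = ∑ g, ‖h g‖ ^ q := by
          rw [Finset.sum_const, Finset.card_range, nsmul_eq_mul]
          field_simp
  · intro h hper
    refine ⟨fun g => ?_, fun r t g => ?_⟩
    · simp only [slc]
      rw [← Finset.mul_sum, Finset.sum_comm]
      have h1 : ∀ t ∈ range M, ∑ r ∈ range M, ee M (-((r : ℤ) * (t : ℤ))) * h (g + t • v) =
          if t = 0 then (M : ℂ) * h g else 0 := by
        intro t ht
        rw [← Finset.sum_mul]
        have h2 : ∑ r ∈ range M, ee M (-((r : ℤ) * (t : ℤ))) = ∑ r ∈ range M, ee M ((-(t : ℤ)) * (r : ℤ)) :=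
          Finset.sum_congr rfl fun r _ => by congr 1; ring
        rw [h2, ex7 M _ hM]
        by_cases ht0 : t = 0
        · subst ht0; simp
        · rw [if_neg ht0, if_neg, zero_mul]
          intro hdvd
          have h3 : (M : ℤ) ∣ (t : ℤ) := (dvd_neg).mp hdvd
          have h4 : M ∣ t := by exact_mod_cast h3
          have := Nat.le_of_dvd (Nat.pos_of_ne_zero ht0) h4
          rw [mem_range] at ht
          omega
      rw [Finset.sum_congr rfl h1, Finset.sum_ite_eq' (range M) 0]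
      rw [if_pos (mem_range.mpr hM), ← mul_assoc, inv_mul_cancel₀ hM0, one_mul]
    · set φ : ℤ → ℂ := fun s => ee M (-((r : ℤ) * s)) * h (g + s • v) with hφ
      have hφp : ∀ x, φ (x + M) = φ x := by
        intro x
        simp only [hφ]
        congr 1
        · apply ex3 M _ _ hM
          exact ⟨-(r : ℤ), by ring⟩
        · rw [add_smul, natCast_zsmul, ← add_assoc, hper]
      have h1 := sum_shift φ hφp t
      have h2 : ∀ s : ℕ, ee M (-((r : ℤ) * (s : ℤ))) * h (g + t • v + s • v) = ee M ((r : ℤ) * t) * φ ((s : ℤ) + t) := by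
        intro s
        simp only [hφ]
        rw [← mul_assoc, ← ex2]
        congr 1
        · congr 1; ring
        · rw [add_smul, natCast_zsmul, add_assoc, add_comm (t • v)]
      simp only [slc]
      rw [Finset.sum_congr rfl fun s _ => h2 s, ← Finset.mul_sum, h1, ← mul_assoc, mul_comm (M : ℂ)⁻¹, mul_assoc]
      congr 2
      refine Finset.sum_congr rfl fun s _ => ?_
      simp only [hφ, natCast_zsmul]

theorem dl (hEX : T_EX) (hCB : T_CB) : T_DL := by
  have hSL := sl hEX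
  obtain ⟨ex1, ex2, ex3, ex4, ex5, ex6, ex7⟩ := hEX
  intro p d m a G _ τ F ξ hp hd ham hF
  obtain ⟨-, -, -, -, cb5⟩ := hCB p d m G τ hp
  have hconj : ∀ (M : ℕ) (z : ℤ), ee M z * (starRingEnd ℂ) (ee M z) = 1 := by
    intro M z
    rw [Complex.mul_conj, Complex.normSq_eq_norm_sq, ex1]; simp
  have part1 : ∀ (P : ℤ[X]) (c : ℤ), P.natDegree ≤ d →
      (∀ y : ℤ, (p : ℤ) ^ m ∣
        P.eval ((ξ : ℤ) + (p : ℤ) ^ a * y) - P.eval (ξ : ℤ) - c * ((p : ℤ) ^ a * y)) →
      ∀ g : G, dlt p a F ξ (g + τ P) = dlt p a F ξ (g + τ (C c * X)) := by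
    intro P c hP hPy g
    set R : ℤ[X] := P - C c * X with hR
    have hRd : R.natDegree ≤ d := by
      refine (natDegree_sub_le _ _).trans (max_le hP ?_)
      exact ((natDegree_C_mul_le _ _).trans natDegree_X_le).trans hd
    have hRx : ∀ y : ℤ, (p : ℤ) ^ m ∣ R.eval ((ξ : ℤ) + (p : ℤ) ^ a * y) - R.eval (ξ : ℤ) := by
      intro y
      have h1 := hPy y
      have h2 : R.eval ((ξ : ℤ) + (p : ℤ) ^ a * y) - R.eval (ξ : ℤ) =
          P.eval ((ξ : ℤ) + (p : ℤ) ^ a * y) - P.eval (ξ : ℤ) - c * ((p : ℤ) ^ a * y) := by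
        simp only [hR, eval_sub, eval_mul, eval_C, eval_X]; ring
      rw [h2]; exact h1
    have hpm : 0 < p ^ m := by positivity
    have hFR : ∀ i : ℕ, i < p → ∀ g' : G, F (ξ + p ^ a * i) (g' + τ R) =
        ee (p ^ m) (R.eval (ξ : ℤ)) * F (ξ + p ^ a * i) g' := by
      intro i hi g'
      have h1 := hF i hi R hRd (by
        intro y hy
        obtain ⟨w, hw⟩ := hy
        have e1 : y = (ξ : ℤ) + (p : ℤ) ^ a * ((i : ℤ) + p * w) := by
          push_cast at hw
          have : y = (ξ : ℤ) + (p : ℤ) ^ a * i + (p : ℤ) ^ (a + 1) * w := by linarith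
          rw [this]; ring
        have e2 : (((ξ + p ^ a * i : ℕ) : ℤ)) = (ξ : ℤ) + (p : ℤ) ^ a * (i : ℤ) := by push_cast; ring
        have h2 := hRx ((i : ℤ) + p * w)
        have h3 := hRx (i : ℤ)
        rw [e1, e2]
        have := dvd_sub h2 h3
        rwa [sub_sub_sub_cancel_right] at this) g'
      rw [h1]
      congr 1
      apply ex3 _ _ _ hpm
      have e2 : (((ξ + p ^ a * i : ℕ) : ℤ)) = (ξ : ℤ) + (p : ℤ) ^ a * (i : ℤ) := by push_cast; ring
      rw [e2]
      have := hRx (i : ℤ)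
      exact_mod_cast this
    have hinv : ∀ g' : G, dlt p a F ξ (g' + τ R) = dlt p a F ξ g' := by
      intro g'
      simp only [dlt]
      refine Finset.sum_congr rfl fun i hi => Finset.sum_congr rfl fun i' hi' => ?_
      rw [mem_range] at hi
      rw [mem_filter, mem_range] at hi'
      rw [hFR i hi, hFR i' hi'.1, map_mul]
      have := hconj (p ^ m) (R.eval (ξ : ℤ))
      calc _ = (ee (p ^ m) (R.eval (ξ : ℤ)) * (starRingEnd ℂ) (ee (p ^ m) (R.eval (ξ : ℤ)))) *
            (F (ξ + p ^ a * i) g' * (starRingEnd ℂ) (F (ξ + p ^ a * i') g')) := by ring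
        _ = _ := by rw [this, one_mul]
    have h5 : g + τ P = (g + τ (C c * X)) + τ R := by
      rw [add_assoc, ← map_add, hR]; congr 2; ring
    rw [h5, hinv]
  refine ⟨part1, ?_, ?_⟩
  · intro g
    have h1 := part1 (C ((p : ℤ) ^ (m - a)) * X) 0 (((natDegree_C_mul_le _ _).trans natDegree_X_le).trans hd) (by
      intro y
      simp only [eval_mul, eval_C, eval_X]
      refine ⟨y, ?_⟩
      have : (p : ℤ) ^ m = (p : ℤ) ^ (m - a) * (p : ℤ) ^ a := by rw [← pow_add]; congr 1; omega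
      rw [this]; ring) g
    rw [h1]
    simp
  · intro c r hc hcm hpr g
    have hpc : 0 < p ^ c := by positivity
    set M := p ^ c with hM
    set v := vv p m (a + c) τ with hv
    obtain ⟨sl1, -, sl3⟩ := hSL M G v hpc
    -- a single term
    have hterm : ∀ i : ℕ, i < p → ∀ i' : ℕ, i' < p → i' ≠ i → ∀ g : G,
        slc M v r (fun g => F (ξ + p ^ a * i) g * (starRingEnd ℂ) (F (ξ + p ^ a * i') g)) g = 0 := by
      intro i hi i' hi' hne g
      set φ : G → ℂ := fun g => F (ξ + p ^ a * i) g * (starRingEnd ℂ) (F (ξ + p ^ a * i') g) with hφ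
      have hb : ∀ b : ℕ, b ≤ a + 1 → ∀ g' : G, φ (g' + τ (C ((p : ℤ) ^ (m - b)) * X)) =
          ee (p ^ b) ((p : ℤ) ^ a * ((i : ℤ) - i')) * φ g' := by
        intro b hb g'
        have h1 := cb5 (a + 1) b _ X _ hb (by omega) (natDegree_X_le.trans hd) (hF i hi) g'
        have h2 := cb5 (a + 1) b _ X _ hb (by omega) (natDegree_X_le.trans hd) (hF i' hi') g'
        simp only [hφ]
        rw [h1, h2, map_mul, ex5, eval_X, eval_X]
        have h3 : ee (p ^ b) ((p : ℤ) ^ a * ((i : ℤ) - i')) =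
            ee (p ^ b) ((ξ + p ^ a * i : ℕ) : ℤ) * ee (p ^ b) (-((ξ + p ^ a * i' : ℕ) : ℤ)) := by
          rw [← ex2]; congr 1; push_cast; ring
        rw [h3]; ring
      have hper : ∀ g', φ (g' + M • v) = φ g' := by
        intro g'
        have h1 : M • v = τ (C ((p : ℤ) ^ (m - a)) * X) := by
          rw [hv, vv, ← map_nsmul, nsmul_eq_mul]
          congr 1
          rw [← mul_assoc]
          congr 1
          rw [hM]
          push_cast
          rw [← C_eq_natCast, ← C_pow, ← C_mul]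
          congr 1
          show (p : ℤ) ^ c * (p : ℤ) ^ (m - (a + c)) = (p : ℤ) ^ (m - a)
          rw [← pow_add]; congr 1; omega
        rw [h1, hb a (by omega)]
        have h2 : ee (p ^ a) ((p : ℤ) ^ a * ((i : ℤ) - i')) = 1 := by
          have h3 := ex3 (p ^ a) ((p : ℤ) ^ a * ((i : ℤ) - i')) 0 (by positivity) ⟨(i : ℤ) - i', by push_cast; ring⟩
          rw [h3]
          simp [ee]
        rw [h2, one_mul]
      have h4 := (sl3 φ hper).2 r ((p : ℤ) ^ (c - 1)) g
      have h5 : ((p : ℤ) ^ (c - 1)) • v = τ (C ((p : ℤ) ^ (m - (a + 1))) * X) := by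
        rw [hv, vv, ← map_zsmul, zsmul_eq_mul]
        congr 1
        rw [← mul_assoc]
        congr 1
        push_cast
        rw [← C_eq_natCast, ← C_pow, ← C_mul]
        congr 1
        show (p : ℤ) ^ (c - 1) * (p : ℤ) ^ (m - (a + c)) = (p : ℤ) ^ (m - (a + 1))
        rw [← pow_add]; congr 1; omega
      have h6 : ee M ((r : ℤ) * (p : ℤ) ^ (c - 1)) = 1 := by
        obtain ⟨k, rfl⟩ := hpr
        have h7 := ex3 M (((p * k : ℕ) : ℤ) * (p : ℤ) ^ (c - 1)) 0 hpc ⟨(k : ℤ), by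
          rw [hM]; push_cast
          have : (p : ℤ) ^ c = p * (p : ℤ) ^ (c - 1) := by rw [← pow_succ']; congr 1; omega
          rw [this]; ring⟩
        rw [h7]
        simp [ee]
      rw [h6, one_mul, h5] at h4
      set ω := ee p ((i : ℤ) - i') with hω
      have h8 : slc M v r φ (g + τ (C ((p : ℤ) ^ (m - (a + 1))) * X)) = ω * slc M v r φ g := by
        simp only [slc]
        have h9 : ∀ t : ℕ, φ (g + τ (C ((p : ℤ) ^ (m - (a + 1))) * X) + t • v) = ω * φ (g + t • v) := by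
          intro t
          rw [add_right_comm, hb (a + 1) le_rfl]
          congr 1
          have := ex6 p (p ^ a) ((i : ℤ) - i') (by positivity)
          rw [hω, ← this, pow_succ']
          congr 1
        rw [mul_left_comm ω, Finset.mul_sum (range M) _ ω]
        congr 1
        refine Finset.sum_congr rfl fun t _ => ?_
        rw [h9]; ring
      have hω1 : ω ≠ 1 := by
        intro h
        have h9 := ex4 p ((i : ℤ) - i') (by omega) h
        obtain ⟨k, hk⟩ := h9
        have : |(i : ℤ) - i'| < p := by rw [abs_lt]; constructor <;> omega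
        rw [hk, abs_mul] at this
        have hk0 : k ≠ 0 := by
          rintro rfl
          rw [mul_zero] at hk
          omega
        have hk1 : 1 ≤ |k| := Int.one_le_abs hk0
        have hpp : |(p : ℤ)| = p := abs_of_nonneg (by positivity)
        rw [hpp] at this
        nlinarith
      rw [h8] at h4
      have h10 : (ω - 1) * slc M v r φ g = 0 := by rw [sub_mul, h4, one_mul, sub_self]
      rcases mul_eq_zero.mp h10 with h | h
      · exact absurd (sub_eq_zero.mp h) hω1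
      · exact h
    have e1 : slc M v r (dlt p a F ξ) g = ∑ i ∈ range p, slc M v r (fun g =>
        ∑ i' ∈ (range p).filter (fun i' => i' ≠ i),
          F (ξ + p ^ a * i) g * (starRingEnd ℂ) (F (ξ + p ^ a * i') g)) g := by
      exact sl1 r (range p) (fun i g => ∑ i' ∈ (range p).filter (fun i' => i' ≠ i),
          F (ξ + p ^ a * i) g * (starRingEnd ℂ) (F (ξ + p ^ a * i') g)) g
    rw [e1]
    refine Finset.sum_eq_zero fun i hi => ?_
    rw [sl1 r ((range p).filter (fun i' => i' ≠ i)) (fun i' g =>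
          F (ξ + p ^ a * i) g * (starRingEnd ℂ) (F (ξ + p ^ a * i') g)) g]
    refine Finset.sum_eq_zero fun i' hi' => ?_
    rw [mem_range] at hi
    rw [mem_filter, mem_range] at hi'
    exact hterm i hi i' hi'.1 hi'.2 g

theorem pq : T_PQ := by
  intro p d m a c s ξ r' w hp hd hsc hdm hw Q hQ
  have hexp : ∀ j : ℕ, j < d → a + c + j * s ≤ m := by
    intro j hj
    have h1 : j * s ≤ (d - 1) * s := Nat.mul_le_mul_right s (by omega)
    have h2 : c ≤ (d - 1) * c := Nat.le_mul_of_pos_left c (by omega)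
    have h3 : (d - 1) * (s + c) ≤ (d - 1) * a := Nat.mul_le_mul_left _ hsc
    have h4 : a + (d - 1) * a = d * a := by
      obtain ⟨k, rfl⟩ : ∃ k, d = k + 1 := ⟨d - 1, by omega⟩
      simp; ring
    rw [mul_add] at h3
    omega
  refine ⟨?_, ?_⟩
  · show natDegree (∑ j ∈ range d, C (Q.coeff j * (r' * w (j + 1) * (p : ℤ) ^ (m - (a + c) - j * s))) *
      (X - C ξ) ^ (j + 1)) ≤ d
    refine natDegree_sum_le_of_forall_le _ _ fun j hj => ?_
    rw [mem_range] at hj
    refine (natDegree_C_mul_le _ _).trans ?_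
    rw [natDegree_pow, natDegree_X_sub_C]
    omega
  · intro z y
    have hev : ∀ A : ℤ, (plf p d m (a + c) s ξ r' w Q).eval (ξ + A) =
        ∑ j ∈ range d, (Q.coeff j * (r' * w (j + 1) * (p : ℤ) ^ (m - (a + c) - j * s))) * A ^ (j + 1) := by
      intro A
      show eval (ξ + A) (∑ j ∈ range d, C (Q.coeff j * (r' * w (j + 1) * (p : ℤ) ^ (m - (a + c) - j * s))) *
        (X - C ξ) ^ (j + 1)) = _
      rw [eval_finsetSum]
      refine Finset.sum_congr rfl fun j _ => ?_
      rw [eval_mul, eval_C, eval_pow, eval_sub, eval_X, eval_C, add_sub_cancel_left]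
    have hQz : Q.eval z = ∑ j ∈ range d, Q.coeff j * z ^ j :=
      eval_eq_sum_range' (by omega) z
    rw [add_assoc, hev, hev, hQz, ← Finset.sum_sub_distrib, Finset.mul_sum, Finset.sum_mul,
      ← Finset.sum_sub_distrib]
    refine Finset.dvd_sum fun j hj => ?_
    rw [mem_range] at hj
    have hjm := hexp j hj
    obtain ⟨k, hk⟩ := Polynomial.powAddExpansion z ((p : ℤ) ^ (a - s) * y) (j + 1)
    have hB : (p : ℤ) ^ a * y = (p : ℤ) ^ s * ((p : ℤ) ^ (a - s) * y) := by
      rw [← mul_assoc, ← pow_add]; congr 2; omega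
    have h1 : ((p : ℤ) ^ s * z + (p : ℤ) ^ a * y) ^ (j + 1) = ((p : ℤ) ^ s) ^ (j + 1) *
        (z ^ (j + 1) + ((j + 1 : ℕ) : ℤ) * z ^ (j + 1 - 1) * ((p : ℤ) ^ (a - s) * y) +
          k * ((p : ℤ) ^ (a - s) * y) ^ 2) := by
      rw [hB, ← mul_add, mul_pow, hk]
    obtain ⟨l, hl⟩ := hw (j + 1) (by omega) (by omega)
    obtain ⟨n, hn⟩ : ∃ n, m = a + c + j * s + n := ⟨m - (a + c + j * s), by omega⟩
    obtain ⟨u, hu⟩ : ∃ u, a = s + c + u := ⟨a - (s + c), by omega⟩
    have hx : m - (a + c) - j * s = n := by omega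
    have hx2 : m - (a + c) = n + j * s := by omega
    have hx3 : a - s = c + u := by omega
    rw [h1, hx, hx2, hx3, Nat.add_sub_cancel]
    have hl' : ((j + 1 : ℕ) : ℤ) * w (j + 1) = 1 + (p : ℤ) ^ m * l := by linarith
    refine ⟨Q.coeff j * r' * (w (j + 1) * k * y ^ 2 * (p : ℤ) ^ u +
      l * z ^ j * y * (p : ℤ) ^ (n + j * s) * (p : ℤ) ^ a), ?_⟩
    have hA : (p : ℤ) ^ a = (p : ℤ) ^ s * (p : ℤ) ^ c * (p : ℤ) ^ u := by rw [hu, pow_add, pow_add]
    have hPm : (p : ℤ) ^ m = (p : ℤ) ^ a * (p : ℤ) ^ c * ((p : ℤ) ^ s) ^ j * (p : ℤ) ^ n := by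
      rw [hn, pow_add, pow_add, pow_add, mul_comm j s, pow_mul]
    have hns : (p : ℤ) ^ (n + j * s) = (p : ℤ) ^ n * ((p : ℤ) ^ s) ^ j := by
      rw [pow_add, mul_comm j s, pow_mul]
    have hcu : (p : ℤ) ^ (c + u) = (p : ℤ) ^ c * (p : ℤ) ^ u := pow_add _ _ _
    have e : Q.coeff j * (r' * w (j + 1) * (p : ℤ) ^ n) * (((p : ℤ) ^ s) ^ (j + 1) *
        (z ^ (j + 1) + ((j + 1 : ℕ) : ℤ) * z ^ j * ((p : ℤ) ^ (c + u) * y) +
          k * ((p : ℤ) ^ (c + u) * y) ^ 2)) -
        Q.coeff j * (r' * w (j + 1) * (p : ℤ) ^ n) * ((p : ℤ) ^ s * z) ^ (j + 1) -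
        r' * (p : ℤ) ^ (n + j * s) * (Q.coeff j * z ^ j) * ((p : ℤ) ^ a * y) =
        Q.coeff j * r' * ((((j + 1 : ℕ) : ℤ) * w (j + 1) - 1) * (p : ℤ) ^ (n + j * s) * z ^ j * ((p : ℤ) ^ a * y) +
          w (j + 1) * k * y ^ 2 * ((p : ℤ) ^ n * ((p : ℤ) ^ s) ^ (j + 1) * ((p : ℤ) ^ (c + u)) ^ 2)) := by
      rw [hns, hcu, hA]
      ring
    rw [e, hl', hPm, hns, hcu, hA]
    ring

end Pool.Agent.H57.CV
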